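import Mathlib

set_option autoImplicit false

open Filter Real

namespace Pool.Agent.H63.CM

private theorem up_pt {y : ℝ} (h0 : 0 ≤ y) (h1 : y ≤ 1) : exp y - 1 ≤ y + y ^ 2 := by
  have h2 := Real.abs_exp_sub_one_sub_id_le (x := y) (by rw [abs_of_nonneg h0]; exact h1)
  have h3 := (abs_le.mp h2).2
  linarith

private theorem up_refl (n : ℕ) (lam : ℝ) (s : Finset ℕ) (hs : ∀ m ∈ s, m < n ∧ lam ≤ (n : ℝ) - m)
    (f : ℕ → ℝ) (hf : ∀ h, 0 ≤ f h) :
    ∑ m ∈ s, f (n - m) ≤ ∑ h ∈ Finset.Ico ⌈lam⌉₊ (n + 1), f h := by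
  rw [← Finset.sum_image (f := f) (g := fun m => n - m) (s := s)]
  · apply Finset.sum_le_sum_of_subset_of_nonneg
    · intro h hh
      obtain ⟨m, hm, rfl⟩ := Finset.mem_image.mp hh
      obtain ⟨h1, h2⟩ := hs m hm
      rw [Finset.mem_Ico]
      refine ⟨?_, by omega⟩
      rw [Nat.ceil_le, Nat.cast_sub h1.le]
      exact h2
    · intro h _ _
      exact hf h
  · intro x hx y hy hxy
    have h1 := (hs x hx).1
    have h2 := (hs y hy).1
    simp only at hxy
    omega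

private theorem up_harm (n : ℕ) (lam : ℝ) (hlam : 1 ≤ lam) (hn : lam ≤ n) (s : Finset ℕ)
    (hs : ∀ m ∈ s, m < n ∧ lam ≤ (n : ℝ) - m) :
    ∑ m ∈ s, 1 / ((n : ℝ) - m) ≤ 1 + log n - log lam := by
  have h1 := up_refl n lam s hs (fun h => 1 / (h : ℝ)) (fun h => by positivity)
  have h2 : ∑ m ∈ s, 1 / ((n : ℝ) - m) = ∑ m ∈ s, (fun h : ℕ => 1 / (h : ℝ)) (n - m) := by
    apply Finset.sum_congr rfl
    intro m hm
    simp only
    rw [Nat.cast_sub (hs m hm).1.le]
  rw [h2]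
  refine h1.trans ?_
  have ha : 1 ≤ ⌈lam⌉₊ := Nat.one_le_ceil_iff.mpr (by linarith)
  have han : ⌈lam⌉₊ ≤ n := Nat.ceil_le.mpr hn
  have h3 := Finset.sum_Ico_consecutive (fun h : ℕ => 1 / (h : ℝ)) ha (show ⌈lam⌉₊ ≤ n + 1 by omega)
  have hh : ∀ k : ℕ, ∑ i ∈ Finset.Ico 1 (k + 1), 1 / (i : ℝ) = ((harmonic k : ℚ) : ℝ) := by
    intro k
    rw [harmonic_eq_sum_Icc]
    push_cast
    apply Finset.sum_congr
    · ext i; simp only [Finset.mem_Ico, Finset.mem_Icc]; omega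
    · intro i _
      rw [one_div]
  have h4 : ∑ i ∈ Finset.Ico 1 (n + 1), 1 / (i : ℝ) ≤ 1 + log n := by
    rw [hh]
    exact harmonic_le_one_add_log n
  have h5 : log lam ≤ ∑ i ∈ Finset.Ico 1 ⌈lam⌉₊, 1 / (i : ℝ) := by
    obtain ⟨k, hk⟩ : ∃ k, ⌈lam⌉₊ = k + 1 := ⟨⌈lam⌉₊ - 1, by omega⟩
    rw [hk, hh]
    refine le_trans ?_ (log_add_one_le_harmonic k)
    apply Real.log_le_log (by linarith)
    rw [← hk]
    exact Nat.le_ceil lam
  linarith

private theorem up_sq (n : ℕ) (lam : ℝ) (hlam : 1 ≤ lam) (s : Finset ℕ)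
    (hs : ∀ m ∈ s, m < n ∧ lam ≤ (n : ℝ) - m) :
    ∑ m ∈ s, 1 / ((n : ℝ) - m) ^ 2 ≤ 2 / lam := by
  have h1 := up_refl n lam s hs (fun h => 1 / (h : ℝ) ^ 2) (fun h => by positivity)
  have h2 : ∑ m ∈ s, 1 / ((n : ℝ) - m) ^ 2 = ∑ m ∈ s, (fun h : ℕ => 1 / (h : ℝ) ^ 2) (n - m) := by
    apply Finset.sum_congr rfl
    intro m hm
    simp only
    rw [Nat.cast_sub (hs m hm).1.le]
  rw [h2]
  refine h1.trans ?_
  have ha : 1 ≤ ⌈lam⌉₊ := Nat.one_le_ceil_iff.mpr (by linarith)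
  obtain ⟨k, hk⟩ : ∃ k, ⌈lam⌉₊ = k + 1 := ⟨⌈lam⌉₊ - 1, by omega⟩
  have h3 : Finset.Ico ⌈lam⌉₊ (n + 1) = Finset.Ioo k (n + 1) := by
    ext i; simp only [Finset.mem_Ico, Finset.mem_Ioo]; omega
  rw [h3]
  have h4 := sum_Ioo_inv_sq_le (α := ℝ) k (n + 1)
  have h5 : ∑ h ∈ Finset.Ioo k (n + 1), 1 / (h : ℝ) ^ 2 = ∑ i ∈ Finset.Ioo k (n + 1), ((i : ℝ) ^ 2)⁻¹ := by
    apply Finset.sum_congr rfl
    intro i _
    rw [one_div]
  rw [h5]
  refine h4.trans ?_
  apply div_le_div_of_nonneg_left (by norm_num) (by linarith)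
  have h6 := Nat.le_ceil lam
  rw [hk] at h6
  push_cast at h6
  exact h6

private theorem up_log (n : ℕ) (hn : 10 ≤ n) (s : Finset ℕ) (hs : ∀ m ∈ s, 3 ≤ m ∧ m < n) :
    ∑ m ∈ s, 1 / log m ≤ Real.sqrt n + 1 + 2 * n / log n := by
  classical
  have hn0 : (0 : ℝ) < n := by positivity
  have hl : 0 < log n := Real.log_pos (by exact_mod_cast (by omega : 1 < n))
  have hpt : ∀ m ∈ s, 1 / log m ≤ (if m ≤ Nat.sqrt n then (1 : ℝ) else 0) + 2 / log n := by
    intro m hm
    obtain ⟨h3, hmn⟩ := hs m hm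
    have hm0 : (0 : ℝ) < m := by exact_mod_cast (by omega : 0 < m)
    have h1 : 1 ≤ log m := by
      rw [Real.le_log_iff_exp_le hm0]
      have h4 := Real.exp_one_lt_d9
      have h5 : (3 : ℝ) ≤ m := by exact_mod_cast h3
      linarith
    split_ifs with hc
    · have h6 : 1 / log m ≤ 1 := by
        rw [div_le_one (by linarith)]
        exact h1
      have h7 : 0 ≤ 2 / log n := by positivity
      linarith
    · rw [zero_add, div_le_div_iff₀ (by linarith) hl, one_mul]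
      have h8 : n ≤ m * m := by
        push Not at hc
        have := Nat.sqrt_lt'.mp hc
        nlinarith
      have h9 : log n ≤ log ((m : ℝ) * m) := Real.log_le_log hn0 (by exact_mod_cast h8)
      rw [Real.log_mul hm0.ne' hm0.ne'] at h9
      linarith
  refine (Finset.sum_le_sum hpt).trans ?_
  rw [Finset.sum_add_distrib, Finset.sum_const, nsmul_eq_mul, ← Finset.sum_filter, Finset.sum_const, nsmul_eq_mul, mul_one]
  have hc1 : (((s.filter fun m => m ≤ Nat.sqrt n).card : ℕ) : ℝ) ≤ Real.sqrt n + 1 := by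
    have h1 : (s.filter fun m => m ≤ Nat.sqrt n) ⊆ Finset.range (Nat.sqrt n + 1) := by
      intro m hm
      have := (Finset.mem_filter.mp hm).2
      rw [Finset.mem_range]
      omega
    have h2 := Finset.card_le_card h1
    rw [Finset.card_range] at h2
    have h3 : (((s.filter fun m => m ≤ Nat.sqrt n).card : ℕ) : ℝ) ≤ (Nat.sqrt n : ℝ) + 1 := by exact_mod_cast h2
    have h4 := Real.nat_sqrt_le_real_sqrt (a := n)
    linarith
  have hc2 : ((s.card : ℕ) : ℝ) ≤ n := by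
    have h1 : s ⊆ Finset.range n := fun m hm => Finset.mem_range.mpr (hs m hm).2
    have h2 := Finset.card_le_card h1
    rw [Finset.card_range] at h2
    exact_mod_cast h2
  have h5 : ((s.card : ℕ) : ℝ) * (2 / log n) ≤ n * (2 / log n) := mul_le_mul_of_nonneg_right hc2 (by positivity)
  have h6 : (n : ℝ) * (2 / log n) = 2 * n / log n := by ring
  linarith

theorem num_up {ε : ℝ} (hε : 0 < ε) : ∀ᶠ n : ℕ in atTop,
    -((log n) ^ 2 / 4 * (1 - (2 - ε) * log (log n) / log n - 3 / ((n : ℝ) - 2))) +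
      ∑ m ∈ (Finset.Ico 3 n).filter (fun m : ℕ => (log n) ^ 2 / 4 ≤ (n : ℝ) - m),
        (1 / log m) * (exp ((log n) ^ 2 / 4 * (1 / ((n : ℝ) - m))) - 1) ≤ -(2 * log n) := by
  have t1 : Tendsto (fun n : ℕ => log (n : ℝ)) atTop atTop := Real.tendsto_log_atTop.comp tendsto_natCast_atTop_atTop
  have t2 : Tendsto (fun n : ℕ => log (log (n : ℝ))) atTop atTop := Real.tendsto_log_atTop.comp t1
  filter_upwards [eventually_ge_atTop 10, t1.eventually_ge_atTop 7, t2.eventually_ge_atTop (41 / ε)] with n hn hl7 hE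
  rw [div_le_iff₀ hε] at hE
  have hn0 : (0 : ℝ) < n := by positivity
  have hn10 : (10 : ℝ) ≤ n := by exact_mod_cast hn
  set l := log (n : ℝ) with hl
  set L2 := log l with hL2
  have hl0 : 0 < l := by linarith
  have hL20 : 0 ≤ L2 := Real.log_nonneg (by linarith)
  set lam := l ^ 2 / 4 with hlam
  have hlam0 : 0 < lam := by positivity
  have hlam1 : 1 ≤ lam := by
    rw [hlam]
    nlinarith
  have hsq0 : 0 < Real.sqrt n := Real.sqrt_pos.mpr hn0
  have hsq : Real.sqrt n * Real.sqrt n = n := Real.mul_self_sqrt hn0.le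
  have hls : l ≤ 2 * Real.sqrt n := by
    have h1 : l = 2 * log (Real.sqrt n) := by
      rw [Real.log_sqrt hn0.le]
      ring
    have h2 := Real.log_le_sub_one_of_pos hsq0
    linarith
  have hlamn : lam ≤ n := by
    rw [hlam, ← hsq]
    nlinarith
  have hln : l ≤ (n : ℝ) - 1 := Real.log_le_sub_one_of_pos hn0
  have hloglam : log lam = 2 * L2 - 2 * log 2 := by
    rw [hlam, Real.log_div (by positivity) (by norm_num), Real.log_pow, show (4 : ℝ) = 2 ^ 2 by norm_num, Real.log_pow]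
    push_cast
    ring
  have hlog2 : log 2 ≤ 1 := by
    have := Real.log_two_lt_d9
    linarith
  set s := (Finset.Ico 3 n).filter (fun m : ℕ => lam ≤ (n : ℝ) - m) with hs
  have hmem : ∀ m ∈ s, 3 ≤ m ∧ m < n ∧ lam ≤ (n : ℝ) - m := by
    intro m hm
    rw [hs, Finset.mem_filter, Finset.mem_Ico] at hm
    exact ⟨hm.1.1, hm.1.2, hm.2⟩
  have hlogm : ∀ m : ℕ, 3 ≤ m → 0 < log (m : ℝ) := fun m hm => Real.log_pos (by exact_mod_cast (by omega : 1 < m))
  have hy : ∀ m ∈ s, 0 ≤ lam * (1 / ((n : ℝ) - m)) ∧ lam * (1 / ((n : ℝ) - m)) ≤ 1 := by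
    intro m hm
    obtain ⟨-, -, h3⟩ := hmem m hm
    have h4 : 0 < (n : ℝ) - m := by linarith
    refine ⟨by positivity, ?_⟩
    rw [mul_one_div, div_le_one h4]
    exact h3
  have hA : ∑ m ∈ s.filter (fun m => n ≤ 2 * m), (1 / log m) * (exp (lam * (1 / ((n : ℝ) - m))) - 1) ≤
      lam - l / 4 * (2 * L2 - 7) := by
    have h1 : ∀ m ∈ s.filter (fun m => n ≤ 2 * m), (1 / log m) * (exp (lam * (1 / ((n : ℝ) - m))) - 1) ≤
        1 / (l - 1) * (lam * (1 / ((n : ℝ) - m)) + lam ^ 2 * (1 / ((n : ℝ) - m) ^ 2)) := by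
      intro m hm
      obtain ⟨hms, h2m⟩ := Finset.mem_filter.mp hm
      obtain ⟨h3, hmn, h4⟩ := hmem m hms
      obtain ⟨hy0, hy1⟩ := hy m hms
      have hm0 : (0 : ℝ) < m := by exact_mod_cast (by omega : 0 < m)
      have h5 : l - 1 ≤ log m := by
        have h6 : l ≤ log (2 * (m : ℝ)) := Real.log_le_log hn0 (by exact_mod_cast h2m)
        rw [Real.log_mul (by norm_num) hm0.ne'] at h6
        linarith
      have h7 : 1 / log m ≤ 1 / (l - 1) := one_div_le_one_div_of_le (by linarith) h5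
      have h8 := up_pt hy0 hy1
      have h9 : 0 ≤ exp (lam * (1 / ((n : ℝ) - m))) - 1 := by
        have := Real.add_one_le_exp (lam * (1 / ((n : ℝ) - m)))
        linarith
      calc (1 / log m) * (exp (lam * (1 / ((n : ℝ) - m))) - 1)
          ≤ 1 / (l - 1) * (exp (lam * (1 / ((n : ℝ) - m))) - 1) := mul_le_mul_of_nonneg_right h7 h9
        _ ≤ 1 / (l - 1) * (lam * (1 / ((n : ℝ) - m)) + (lam * (1 / ((n : ℝ) - m))) ^ 2) :=
            mul_le_mul_of_nonneg_left h8 (by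
              apply div_nonneg zero_le_one
              linarith)
        _ = _ := by
            rw [mul_pow, one_div_pow]
    refine (Finset.sum_le_sum h1).trans ?_
    rw [← Finset.mul_sum, Finset.sum_add_distrib, ← Finset.mul_sum, ← Finset.mul_sum]
    have h2 := up_harm n lam hlam1 hlamn (s.filter (fun m => n ≤ 2 * m))
      (fun m hm => (hmem m (Finset.mem_filter.mp hm).1).2)
    have h3 := up_sq n lam hlam1 (s.filter (fun m => n ≤ 2 * m))
      (fun m hm => (hmem m (Finset.mem_filter.mp hm).1).2)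
    have h4 : lam * ∑ m ∈ s.filter (fun m => n ≤ 2 * m), 1 / ((n : ℝ) - m) ≤ lam * (l - 2 * L2 + 3) := by
      apply mul_le_mul_of_nonneg_left _ hlam0.le
      rw [hloglam] at h2
      linarith
    have h5 : lam ^ 2 * ∑ m ∈ s.filter (fun m => n ≤ 2 * m), 1 / ((n : ℝ) - m) ^ 2 ≤ 2 * lam := by
      have h6 := mul_le_mul_of_nonneg_left h3 (show 0 ≤ lam ^ 2 by positivity)
      have h7 : lam ^ 2 * (2 / lam) = 2 * lam := by
        field_simp
      linarith
    have h6 : 1 / (l - 1) * (lam * ∑ m ∈ s.filter (fun m => n ≤ 2 * m), 1 / ((n : ℝ) - m) +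
        lam ^ 2 * ∑ m ∈ s.filter (fun m => n ≤ 2 * m), 1 / ((n : ℝ) - m) ^ 2) ≤
        1 / (l - 1) * (lam * (l - 2 * L2 + 5)) := by
      apply mul_le_mul_of_nonneg_left _ (by
        apply div_nonneg zero_le_one
        linarith)
      linarith
    refine h6.trans ?_
    rw [one_div, inv_mul_le_iff₀ (by linarith)]
    have e : lam - l / 4 * (2 * L2 - 7) = l / 4 * (l - 2 * L2 + 7) := by
      rw [hlam]; ring
    have e' : lam * (l - 2 * L2 + 5) = l / 4 * (l * (l - 2 * L2 + 5)) := by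
      rw [hlam]; ring
    rw [e, e']
    have h7 : l * (l - 2 * L2 + 5) ≤ (l - 1) * (l - 2 * L2 + 7) := by nlinarith
    calc l / 4 * (l * (l - 2 * L2 + 5)) ≤ l / 4 * ((l - 1) * (l - 2 * L2 + 7)) :=
          mul_le_mul_of_nonneg_left h7 (by positivity)
      _ = _ := by ring
  have hB : ∑ m ∈ s.filter (fun m => ¬ n ≤ 2 * m), (1 / log m) * (exp (lam * (1 / ((n : ℝ) - m))) - 1) ≤ 5 * l := by
    have h1 : ∀ m ∈ s.filter (fun m => ¬ n ≤ 2 * m), (1 / log m) * (exp (lam * (1 / ((n : ℝ) - m))) - 1) ≤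
        4 * lam / n * (1 / log m) := by
      intro m hm
      obtain ⟨hms, h2m⟩ := Finset.mem_filter.mp hm
      obtain ⟨h3, hmn, h4⟩ := hmem m hms
      obtain ⟨hy0, hy1⟩ := hy m hms
      have h5 : 2 * (m : ℝ) ≤ n := by exact_mod_cast (by omega : 2 * m ≤ n)
      have h6 := up_pt hy0 hy1
      have h7 : lam * (1 / ((n : ℝ) - m)) ≤ 2 * lam / n := by
        rw [mul_one_div, div_le_div_iff₀ (by linarith) hn0]
        nlinarith
      have h8 : exp (lam * (1 / ((n : ℝ) - m))) - 1 ≤ 4 * lam / n := by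
        have h9 : (lam * (1 / ((n : ℝ) - m))) ^ 2 ≤ lam * (1 / ((n : ℝ) - m)) := by nlinarith
        have h10 : 4 * lam / n = 2 * (2 * lam / n) := by ring
        linarith
      rw [mul_comm (4 * lam / (n : ℝ))]
      apply mul_le_mul_of_nonneg_left h8
      have := hlogm m h3
      positivity
    refine (Finset.sum_le_sum h1).trans ?_
    rw [← Finset.mul_sum]
    have h2 := up_log n hn (s.filter (fun m => ¬ n ≤ 2 * m))
      (fun m hm => ⟨(hmem m (Finset.mem_filter.mp hm).1).1, (hmem m (Finset.mem_filter.mp hm).1).2.1⟩)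
    have h3 := mul_le_mul_of_nonneg_left h2 (show 0 ≤ 4 * lam / n by positivity)
    refine h3.trans ?_
    have e : 4 * lam / n * (Real.sqrt n + 1 + 2 * n / l) = l * (l / Real.sqrt n) + l * (l / n) + 2 * l := by
      have e1 : Real.sqrt n / n = 1 / Real.sqrt n := by
        rw [div_eq_div_iff hn0.ne' hsq0.ne', one_mul]
        exact hsq
      have e2 : 4 * lam / n * (Real.sqrt n + 1 + 2 * n / l) = l ^ 2 * (Real.sqrt n / n) + l ^ 2 / n + 2 * (l ^ 2 / l) * (n / n) := by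
        rw [hlam]; ring
      rw [e2, e1, div_self hn0.ne']
      field_simp
    rw [← hl, e]
    have h4 : l / Real.sqrt n ≤ 2 := by
      rw [div_le_iff₀ hsq0]
      exact hls
    have h5 : l / n ≤ 1 := by
      rw [div_le_one hn0]
      linarith
    nlinarith
  have hsum := Finset.sum_filter_add_sum_filter_not s (fun m => n ≤ 2 * m)
    (fun m : ℕ => (1 / log m) * (exp (lam * (1 / ((n : ℝ) - m))) - 1))
  rw [← hsum]
  have hC : lam * (1 - (2 - ε) * L2 / l - 3 / ((n : ℝ) - 2)) ≥ lam - l / 4 * ((2 - ε) * L2) - 3 / 2 * l := by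
    have e1 : lam * (1 - (2 - ε) * L2 / l - 3 / ((n : ℝ) - 2)) =
        lam - l / 4 * ((2 - ε) * L2) * (l / l) - 3 / 4 * l * (l / ((n : ℝ) - 2)) := by
      rw [hlam]; ring
    have h1 : l / ((n : ℝ) - 2) ≤ 2 := by
      rw [div_le_iff₀ (by linarith)]
      linarith
    rw [e1, div_self hl0.ne']
    nlinarith
  have hfin : l / 4 * (L2 * ε) ≥ l / 4 * 41 := mul_le_mul_of_nonneg_left hE (by positivity)
  have e5 : l / 4 * ((2 - ε) * L2) = l / 4 * (2 * L2) - l / 4 * (L2 * ε) := by ring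
  rw [e5] at hC
  have e6 : l / 4 * (2 * L2 - 7) = l / 4 * (2 * L2) - 7 / 4 * l := by ring
  rw [e6] at hA
  linarith

end Pool.Agent.H63.CM
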